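import Pool.Agent.Results.MP_4c716f_mp.GammaOneDimOne

/-!
# Even potentials are optimal for `γ = 1` on the line

The Lieb-Thirring ratio `R_1(1)` and its restriction to even potentials are both equal to `2/√3`.
Uses the sharp one-dimensional Lieb-Thirring inequality of the starting files (helper490).
-/

set_option autoImplicit false

open MeasureTheory Set Real

namespace Pool.Agent.Results.MP_d5a362_mp.GammaOneLine

open Pool.Helper490.Eig Pool.Helper490.Sech Pool.Agent.Results.MP_4c716f_mp.GammaOneDimOne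

theorem ratio_le (V : ℝ → ℝ) (hV : MemLp V (3 / 2))
    (hpos : 0 < ∫ x, (max (-V x) 0) ^ ((3 : ℝ) / 2)) (N : ℕ) :
    (∑ n ∈ Finset.range N, max (-minMax V n) 0) /
      (2 / (3 * π) * ∫ x, (max (-V x) 0) ^ ((3 : ℝ) / 2)) ≤ 2 / √3 := by
  have h1 := Pool.Agent.Results.MP_4c716f_mp.GammaOneDimOne.result.1 V hV N
  have hπ := pi_pos
  have h30 : 0 < √3 := Real.sqrt_pos.2 (by norm_num)
  rw [div_le_iff₀ (by positivity)]
  refine h1.trans (le_of_eq ?_)
  field_simp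
  ring

theorem V0_even (x : ℝ) : V0 (-x) = V0 x := by
  rw [V0, V0, cosh_neg]

theorem ratio_V0 : 2 / √3 ≤ (∑ n ∈ Finset.range 1, max (-minMax V0 n) 0) /
      (2 / (3 * π) * ∫ x, (max (-V0 x) 0) ^ ((3 : ℝ) / 2)) := by
  have hπ := pi_pos
  have h3 : √3 ^ 2 = 3 := Real.sq_sqrt (by norm_num)
  have h30 : 0 < √3 := Real.sqrt_pos.2 (by norm_num)
  have h2 : 1 / 4 ≤ max (-minMax V0 0) 0 :=
    le_trans (by linarith [minMax_V0]) (le_max_left _ _)
  rw [Finset.sum_range_one, V0_integral, le_div_iff₀ (by positivity)]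
  refine le_trans (le_of_eq ?_) h2
  field_simp
  ring

theorem pos_V0 : 0 < ∫ x, (max (-V0 x) 0) ^ ((3 : ℝ) / 2) := by
  rw [V0_integral]
  have hπ := pi_pos
  have h30 : 0 < √3 := Real.sqrt_pos.2 (by norm_num)
  positivity

/-- For `n = 1`, `γ = 1` the optimal Lieb-Thirring ratios over all potentials and over even
potentials are both `2/√3`. -/
theorem result :
    IsLUB {r : ℝ | ∃ V : ℝ → ℝ, MemLp V (3 / 2) ∧ (∀ x, V (-x) = V x) ∧
      0 < ∫ x, (max (-V x) 0) ^ ((3 : ℝ) / 2) ∧ ∃ N : ℕ,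
        r = (∑ n ∈ Finset.range N, max (-minMax V n) 0) /
          (2 / (3 * π) * ∫ x, (max (-V x) 0) ^ ((3 : ℝ) / 2))} (2 / √3) ∧
    IsLUB {r : ℝ | ∃ V : ℝ → ℝ, MemLp V (3 / 2) ∧
      0 < ∫ x, (max (-V x) 0) ^ ((3 : ℝ) / 2) ∧ ∃ N : ℕ,
        r = (∑ n ∈ Finset.range N, max (-minMax V n) 0) /
          (2 / (3 * π) * ∫ x, (max (-V x) 0) ^ ((3 : ℝ) / 2))} (2 / √3) := by
  refine ⟨⟨?_, ?_⟩, ⟨?_, ?_⟩⟩
  · rintro r ⟨V, hV, -, hpos, N, rfl⟩
    exact ratio_le V hV hpos N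
  · intro b hb
    exact ratio_V0.trans (hb ⟨V0, V0_memLp, V0_even, pos_V0, 1, rfl⟩)
  · rintro r ⟨V, hV, hpos, N, rfl⟩
    exact ratio_le V hV hpos N
  · intro b hb
    exact ratio_V0.trans (hb ⟨V0, V0_memLp, pos_V0, 1, rfl⟩)

end Pool.Agent.Results.MP_d5a362_mp.GammaOneLine
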